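import Pool.Agent.R646.Q.Box

set_option autoImplicit false

/-!
# Graph products of cyclic groups: dihedral homomorphisms, growth, isolation
-/

namespace Pool.Agent.R646.Q

open Multiplicative

/-- The homomorphism from a finite cyclic group determined by an element. -/
def cycHom {H : Type*} [Group H] (n : ℕ) (h : H) (hh : h ^ n = 1) :
    Multiplicative (ZMod n) →* H :=
  AddMonoidHom.toMultiplicativeLeft
    (ZMod.lift n ⟨zmultiplesHom (Additive H) (Additive.ofMul h), by
      simp only [zmultiplesHom_apply, natCast_zsmul]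
      rw [← ofMul_pow, hh, ofMul_one]⟩)

theorem cycHom_apply {H : Type*} [Group H] (n : ℕ) (h : H) (hh : h ^ n = 1) (k : ℤ) :
    cycHom n h hh (ofAdd (k : ZMod n)) = h ^ k := by
  unfold cycHom
  simp only [AddMonoidHom.toMultiplicativeLeft_apply_apply, toAdd_ofAdd, ZMod.lift_coe,
    zmultiplesHom_apply]
  rw [← ofMul_zpow, toMul_ofMul]

theorem cycHom_one {H : Type*} [Group H] (n : ℕ) (h : H) (hh : h ^ n = 1) :
    cycHom n h hh (ofAdd (1 : ZMod n)) = h := by
  have := cycHom_apply n h hh 1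
  rw [zpow_one, Int.cast_one] at this
  exact this

theorem cycHom_eq (n : ℕ) {H : Type*} [Group H] (h : H) (hh : h ^ n = 1)
    (x : Multiplicative (ZMod n)) : ∃ k : ℤ, cycHom n h hh x = h ^ k := by
  obtain ⟨k, hk⟩ := ZMod.intCast_surjective (toAdd x)
  refine ⟨k, ?_⟩
  rw [← cycHom_apply n h hh k, hk]
  rfl

/-- The graph product of finite cyclic groups of orders `n v`. -/
abbrev CG {V : Type} (Γ : SimpleGraph V) (n : V → ℕ) : Type :=
  GraphProd Γ (fun v => Multiplicative (ZMod (n v)))

namespace CG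

open GP

variable {V : Type} {Γ : SimpleGraph V} {n : V → ℕ}

/-- The standard generator at `v`. -/
def gen (Γ : SimpleGraph V) (n : V → ℕ) (v : V) : CG Γ n := of v (ofAdd (1 : ZMod (n v)))

theorem gen_mem_sub {T : Set V} {v : V} (h : v ∈ T) :
    gen Γ n v ∈ (sub T : Subgroup (CG Γ n)) := of_mem_sub h _

theorem gen_mem_gens {T : Set V} {v : V} (h : v ∈ T) :
    gen Γ n v ∈ (gens T : Set (CG Γ n)) := ⟨v, h, _, rfl⟩

theorem two_cases {m : ℕ} (hm : m = 2) (x : Multiplicative (ZMod m)) :
    x = 1 ∨ x = ofAdd (1 : ZMod m) := by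
  subst hm
  revert x
  decide

theorem gen_mul_self {v : V} (h : n v = 2) : gen Γ n v * gen Γ n v = 1 := by
  unfold gen
  rw [← map_mul]
  have : (ofAdd (1 : ZMod (n v))) * ofAdd (1 : ZMod (n v)) = 1 := by
    have : ∀ m : ℕ, m = 2 → (ofAdd (1 : ZMod m)) * ofAdd (1 : ZMod m) = 1 := by
      rintro m rfl; decide
    exact this _ h
  rw [this, map_one]

theorem gen_ne_one {v : V} (h : n v = 2) : gen Γ n v ≠ 1 := by
  intro h1
  have h2 : (ofAdd (1 : ZMod (n v))) = 1 :=
    of_injective (Γ := Γ) (A := fun v => Multiplicative (ZMod (n v))) v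
      (h1.trans (map_one (of (Γ := Γ) (A := fun v => Multiplicative (ZMod (n v))) v)).symm)
  have : ∀ m : ℕ, m = 2 → (ofAdd (1 : ZMod m)) ≠ 1 := by
    rintro m rfl; decide
  exact this _ h h2

theorem gen_inv {v : V} (h : n v = 2) : (gen Γ n v)⁻¹ = gen Γ n v :=
  inv_eq_of_mul_eq_one_left (gen_mul_self h)

theorem of_cases {v : V} (h : n v = 2) (x : Multiplicative (ZMod (n v))) :
    (of v x : CG Γ n) = 1 ∨ (of v x : CG Γ n) = gen Γ n v := by
  rcases two_cases h x with rfl | rfl
  · left; exact map_one _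
  · right; rfl

/-- Homomorphisms out of a graph product of cyclic groups. -/
def liftC {H : Type*} [Group H] (t : V → H) (h1 : ∀ v, t v ^ n v = 1)
    (h2 : ∀ u v, Γ.Adj u v → t u * t v = t v * t u) : CG Γ n →* H :=
  lift (fun v => cycHom (n v) (t v) (h1 v)) (by
    intro u v h x y
    obtain ⟨k, hk⟩ := cycHom_eq (n u) (t u) (h1 u) x
    obtain ⟨l, hl⟩ := cycHom_eq (n v) (t v) (h1 v) y
    rw [hk, hl]
    have : Commute (t u) (t v) := h2 u v h
    exact (this.zpow_zpow k l))

theorem liftC_gen {H : Type*} [Group H] (t : V → H) (h1 : ∀ v, t v ^ n v = 1)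
    (h2 : ∀ u v, Γ.Adj u v → t u * t v = t v * t u) (v : V) :
    liftC t h1 h2 (gen Γ n v) = t v := by
  unfold liftC gen
  rw [lift_of, cycHom_one]

theorem liftC_of_one {H : Type*} [Group H] (t : V → H) (h1 : ∀ v, t v ^ n v = 1)
    (h2 : ∀ u v, Γ.Adj u v → t u * t v = t v * t u) (v : V) (hv : t v = 1)
    (x : Multiplicative (ZMod (n v))) :
    liftC t h1 h2 (of v x : CG Γ n) = 1 := by
  unfold liftC
  rw [lift_of]
  obtain ⟨k, hk⟩ := cycHom_eq (n v) (t v) (h1 v) x
  rw [hk, hv, one_zpow]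

/-- The reflection `x ↦ p - x`. -/
def refl {A : Type*} [AddCommGroup A] (p : A) : Equiv.Perm A := Equiv.subLeft p

theorem refl_apply {A : Type*} [AddCommGroup A] (p x : A) : refl p x = p - x := rfl

theorem refl_sq {A : Type*} [AddCommGroup A] (p : A) : refl p * refl p = 1 := by
  ext x
  simp [refl_apply]

open Classical in
/-- The action of an infinite dihedral quotient on the integers. -/
theorem exists_dihedral {u v : V} (huv : u ≠ v) (hadj : ¬ Γ.Adj u v) (hu : n u = 2) (hv : n v = 2) :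
    ∃ φ : CG Γ n →* Equiv.Perm ℤ, φ (gen Γ n u) = refl 0 ∧ φ (gen Γ n v) = refl 1 ∧
      ∀ z, z ≠ u → z ≠ v → ∀ x, φ (of z x) = 1 := by
  refine ⟨liftC (fun z => if z = u then refl 0 else if z = v then refl 1 else 1) ?_ ?_, ?_, ?_, ?_⟩
  · intro z
    by_cases h1 : z = u
    · subst h1; simp [hu, pow_two, refl_sq]
    · by_cases h2 : z = v
      · subst h2; simp [h1, hv, pow_two, refl_sq]
      · simp [h1, h2]
  · intro a b hab
    by_cases h1 : a = u
    · subst h1
      have hb : b ≠ v := fun h => hadj (h ▸ hab)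
      have hb' : b ≠ a := fun h => Γ.loopless.irrefl a (h ▸ hab)
      simp [hb, hb']
    · by_cases h2 : a = v
      · subst h2
        have hb : b ≠ u := fun h => hadj (h ▸ hab.symm)
        have hb' : b ≠ a := fun h => Γ.loopless.irrefl a (h ▸ hab)
        simp [hb, hb']
      · simp [h1, h2]
  · rw [liftC_gen]; simp
  · rw [liftC_gen]; simp [huv.symm]
  · intro z h1 h2 x
    apply liftC_of_one
    simp [h1, h2]

section dihedral

variable {u v : V} {φ : CG Γ n →* Equiv.Perm ℤ}

/-- elements of the star of `u` fix `0` -/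
theorem dih_fix (hu : n u = 2) (hadj : ¬ Γ.Adj u v) (huv : u ≠ v) (h1 : φ (gen Γ n u) = refl 0)
    (h3 : ∀ z, z ≠ u → z ≠ v → ∀ x, φ (of z x) = 1) {g : CG Γ n}
    (hg : g ∈ (sub (st Γ u) : Subgroup (CG Γ n))) : φ g 0 = 0 := by
  refine sub_induction (p := fun g => φ g 0 = 0) hg (by simp) ?_
  intro g z x hz _ ih
  have hzx : φ (of z x) 0 = 0 := by
    rcases hz with rfl | hz
    · rcases of_cases (Γ := Γ) hu x with h | h
      · rw [h]; simp
      · rw [h, h1]; simp [refl_apply]
    · rw [h3 z (fun h => Γ.loopless.irrefl u (h ▸ hz)) (fun h => hadj (h ▸ hz))]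
      rfl
  rw [map_mul, Equiv.Perm.mul_apply, hzx, ih]

/-- displacement bound -/
theorem dih_bound (hu : n u = 2) (hv : n v = 2) (h1 : φ (gen Γ n u) = refl 0)
    (h2 : φ (gen Γ n v) = refl 1)
    (h3 : ∀ z, z ≠ u → z ≠ v → ∀ x, φ (of z x) = 1) {m : ℕ} {g : CG Γ n}
    (hg : g ∈ Bl (gens Set.univ) m) : |φ g 0| ≤ m := by
  induction m generalizing g with
  | zero =>
    rw [Bl_zero] at hg
    rw [Set.mem_singleton_iff.mp hg]; simp
  | succ m ih =>
    rcases Bl_succ' hg with h | ⟨a, ha, x, ⟨z, -, y, rfl⟩, rfl⟩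
    · have := ih h
      push_cast
      omega
    · have iha := ih ha
      rw [map_mul, Equiv.Perm.mul_apply]
      by_cases hz : z = u
      · subst hz
        rcases of_cases (Γ := Γ) hu y with h | h
        · rw [h]; simp only [map_one, Equiv.Perm.one_apply]; push_cast; omega
        · rw [h, h1, refl_apply]; push_cast; rw [zero_sub, abs_neg]; omega
      · by_cases hz' : z = v
        · subst hz'
          rcases of_cases (Γ := Γ) hv y with h | h
          · rw [h]; simp only [map_one, Equiv.Perm.one_apply]; push_cast; omega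
          · rw [h, h2, refl_apply]; push_cast
            rw [abs_le] at iha ⊢
            constructor <;> omega
        · rw [h3 z hz hz']; simp only [Equiv.Perm.one_apply]; push_cast; omega

theorem dih_zpow (h1 : φ (gen Γ n u) = refl 0) (h2 : φ (gen Γ n v) = refl 1) (k c : ℤ) :
    φ ((gen Γ n u * gen Γ n v) ^ k) c = c - k := by
  have h0 : φ (gen Γ n u * gen Γ n v) = Equiv.addRight (-1 : ℤ) := by
    ext x
    rw [map_mul, h1, h2, Equiv.Perm.mul_apply, refl_apply, refl_apply]
    simp only [Equiv.coe_addRight]; ring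
  rw [map_zpow, h0]
  have : ∀ k : ℤ, (Equiv.addRight (-1 : ℤ) : Equiv.Perm ℤ) ^ k = Equiv.addRight (-k) := by
    intro k
    have := (AddEquiv.refl ℤ)
    induction k with
    | zero => ext x; simp
    | succ k ih =>
      rw [zpow_add_one, ih]; ext x
      simp only [Equiv.Perm.mul_apply, Equiv.coe_addRight]; ring
    | pred k ih =>
      rw [zpow_sub_one, ih]; ext x
      simp only [Equiv.Perm.mul_apply, Equiv.Perm.inv_def, Equiv.addRight_symm, Equiv.coe_addRight]; ring
  rw [this, Equiv.coe_addRight]; ring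

end dihedral

/-- Superlinear growth from three pairwise non-adjacent involutions. -/
theorem superlinear [Finite V] (hn : ∀ v, n v ≠ 0) {a b c : V} (hab : a ≠ b) (hac : a ≠ c) (hbc : b ≠ c)
    (h1 : ¬ Γ.Adj a b) (h2 : ¬ Γ.Adj a c) (h3 : ¬ Γ.Adj b c) (ha : n a = 2) (hb : n b = 2)
    (hc : n c = 2) {T : Set V} (hT : a ∈ T ∧ b ∈ T ∧ c ∈ T) (C : ℕ) :
    ∀ k, 32 * C + 4 ≤ k → C * (2 * (k + 1) + 1) < (Bl (gens T : Set (CG Γ n)) k).ncard := by
  classical
  have : ∀ v, Finite (Multiplicative (ZMod (n v))) := by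
    intro v
    have : NeZero (n v) := ⟨hn v⟩
    exact inferInstanceAs (Finite (ZMod (n v)))
  let t : V → Equiv.Perm (ℤ × ℤ) := fun z =>
    if z = a then refl 0 else if z = b then refl (1, 0) else if z = c then refl (0, 1) else 1
  have ta : t a = refl 0 := by simp [t]
  have tb : t b = refl (1, 0) := by simp [t, hab.symm]
  have tc : t c = refl (0, 1) := by simp [t, hac.symm, hbc.symm]
  have tz : ∀ z, z ≠ a → z ≠ b → z ≠ c → t z = 1 := by intro z x y w; simp [t, x, y, w]
  have t1 : ∀ z, t z ^ n z = 1 := by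
    intro z
    by_cases e1 : z = a
    · subst e1; rw [ta, ha, pow_two, refl_sq]
    · by_cases e2 : z = b
      · subst e2; rw [tb, hb, pow_two, refl_sq]
      · by_cases e3 : z = c
        · subst e3; rw [tc, hc, pow_two, refl_sq]
        · rw [tz z e1 e2 e3, one_pow]
  have t2 : ∀ x y, Γ.Adj x y → t x * t y = t y * t x := by
    intro x y hxy
    have hne : x ≠ y := fun h => Γ.loopless.irrefl x (h ▸ hxy)
    by_cases ex : x = a ∨ x = b ∨ x = c
    · have : t y = 1 := by
        apply tz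
        · rintro rfl; rcases ex with rfl | rfl | rfl
          · exact hne rfl
          · exact h1 hxy.symm
          · exact h2 hxy.symm
        · rintro rfl; rcases ex with rfl | rfl | rfl
          · exact h1 hxy
          · exact hne rfl
          · exact h3 hxy.symm
        · rintro rfl; rcases ex with rfl | rfl | rfl
          · exact h2 hxy
          · exact h3 hxy
          · exact hne rfl
      rw [this]; simp
    · push Not at ex
      rw [tz x ex.1 ex.2.1 ex.2.2]; simp
  let φ : CG Γ n →* Equiv.Perm (ℤ × ℤ) := liftC t t1 t2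
  have hφb : ∀ i : ℕ, ∀ p, φ ((gen Γ n b * gen Γ n a) ^ i) p = p + (i • (1, 0) : ℤ × ℤ) := by
    intro i
    induction i with
    | zero => intro p; simp
    | succ i ih =>
      intro p
      rw [pow_succ, map_mul, Equiv.Perm.mul_apply, ih, map_mul]
      simp only [φ, liftC_gen]
      rw [ta, tb, Equiv.Perm.mul_apply, refl_apply, refl_apply, succ_nsmul]
      abel
  have hφc : ∀ i : ℕ, ∀ p, φ ((gen Γ n c * gen Γ n a) ^ i) p = p + (i • (0, 1) : ℤ × ℤ) := by
    intro i
    induction i with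
    | zero => intro p; simp
    | succ i ih =>
      intro p
      rw [pow_succ, map_mul, Equiv.Perm.mul_apply, ih, map_mul]
      simp only [φ, liftC_gen]
      rw [ta, tc, Equiv.Perm.mul_apply, refl_apply, refl_apply, succ_nsmul]
      abel
  intro k hk
  let m := k / 4
  have hm : 4 * m ≤ k := Nat.mul_div_le k 4
  have hm' : k < 4 * m + 4 := by omega
  let F : ℕ × ℕ → CG Γ n := fun q => (gen Γ n b * gen Γ n a) ^ q.1 * (gen Γ n c * gen Γ n a) ^ q.2
  have hF : Function.Injective F := by
    intro q q' h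
    have h' := congrArg (fun g => φ g 0) h
    simp only [F, map_mul, Equiv.Perm.mul_apply, hφb, hφc] at h'
    simp only [Prod.smul_mk, zero_add, Prod.mk_add_mk, Prod.mk.injEq] at h'
    simp at h'
    exact Prod.ext h'.1 h'.2
  let Q : Set (ℕ × ℕ) := (Set.Iic m) ×ˢ (Set.Iic m)
  have hsub : F '' Q ⊆ Bl (gens T : Set (CG Γ n)) k := by
    rintro _ ⟨q, ⟨hq1, hq2⟩, rfl⟩
    have g1 : gen Γ n b * gen Γ n a ∈ Bl (gens T : Set (CG Γ n)) 2 :=
      mul_mem_Bl (gen_mem_Bl (gen_mem_gens hT.2.1)) (gen_mem_Bl (gen_mem_gens hT.1))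
    have g2 : gen Γ n c * gen Γ n a ∈ Bl (gens T : Set (CG Γ n)) 2 :=
      mul_mem_Bl (gen_mem_Bl (gen_mem_gens hT.2.2)) (gen_mem_Bl (gen_mem_gens hT.1))
    refine Bl_mono ?_ (mul_mem_Bl (pow_mem_Bl g1 q.1) (pow_mem_Bl g2 q.2))
    simp only [Set.mem_Iic] at hq1 hq2
    omega
  have hcard : (F '' Q).ncard = (m + 1) * (m + 1) := by
    rw [Set.ncard_image_of_injective _ hF, Set.ncard_prod]
    simp [Set.ncard_eq_toFinset_card']
  have hle := Set.ncard_le_ncard hsub (Bl_finite (gens_finite T) k)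
  rw [hcard] at hle
  have hC : 8 * C + 1 ≤ m + 1 := by omega
  nlinarith

end CG

end Pool.Agent.R646.Q
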