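import Mathlib

set_option autoImplicit false

/-!
# Graph products of groups: homomorphisms out, retractions, potentials, wall functions
-/

namespace Pool.Agent.R646.Q

open Monoid

/-- The commutators of elements of adjacent vertex groups. -/
def rels {V : Type} (Γ : SimpleGraph V) (A : V → Type) [∀ v, Group (A v)] : Set (CoprodI A) :=
  {r : CoprodI A | ∃ u v : V, Γ.Adj u v ∧ ∃ (x : A u) (y : A v),
      r = CoprodI.of x * CoprodI.of y * (CoprodI.of x)⁻¹ * (CoprodI.of y)⁻¹}

/-- The graph product of the groups `A v` over the graph `Γ`: the quotient of the free product of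
the `A v` by the normal closure of all commutators of elements of adjacent vertex groups. -/
def GraphProd {V : Type} (Γ : SimpleGraph V) (A : V → Type) [∀ v, Group (A v)] : Type :=
  CoprodI A ⧸ Subgroup.normalClosure (rels Γ A)

instance {V : Type} (Γ : SimpleGraph V) (A : V → Type) [∀ v, Group (A v)] :
    Group (GraphProd Γ A) :=
  inferInstanceAs (Group (CoprodI A ⧸ Subgroup.normalClosure (rels Γ A)))

namespace GP

variable {V : Type} {Γ : SimpleGraph V} {A : V → Type} [∀ v, Group (A v)]

/-- The quotient map. -/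
def qm : CoprodI A →* GraphProd Γ A := QuotientGroup.mk' (Subgroup.normalClosure (rels Γ A))

theorem qm_surjective : Function.Surjective (qm : CoprodI A →* GraphProd Γ A) :=
  QuotientGroup.mk'_surjective _

/-- The canonical map of a vertex group. -/
def of (v : V) : A v →* GraphProd Γ A := qm.comp CoprodI.of

theorem of_comm {u v : V} (h : Γ.Adj u v) (x : A u) (y : A v) :
    (of u x : GraphProd Γ A) * of v y = of v y * of u x := by
  have h1 : (qm (CoprodI.of x * CoprodI.of y * (CoprodI.of x)⁻¹ * (CoprodI.of y)⁻¹) :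
      GraphProd Γ A) = 1 :=
    (QuotientGroup.eq_one_iff (N := Subgroup.normalClosure (rels Γ A)) _).mpr
      (Subgroup.subset_normalClosure ⟨u, v, h, x, y, rfl⟩)
  simp only [map_mul, map_inv] at h1
  rw [mul_inv_eq_one, mul_inv_eq_iff_eq_mul] at h1
  exact h1

/-- The universal property. -/
def lift {H : Type*} [Group H] (f : ∀ v, A v →* H)
    (hf : ∀ u v, Γ.Adj u v → ∀ (x : A u) (y : A v), f u x * f v y = f v y * f u x) :
    GraphProd Γ A →* H :=
  QuotientGroup.lift (Subgroup.normalClosure (rels Γ A)) (CoprodI.lift f) (by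
    have : Subgroup.normalClosure (rels Γ A) ≤ (CoprodI.lift f).ker := by
      apply Subgroup.normalClosure_le_normal
      rintro r ⟨u, v, h, x, y, rfl⟩
      simp only [SetLike.mem_coe, MonoidHom.mem_ker, map_mul, map_inv, CoprodI.lift_of]
      rw [mul_inv_eq_one, mul_inv_eq_iff_eq_mul]
      exact hf u v h x y
    intro x hx
    exact this hx)

@[simp] theorem lift_of {H : Type*} [Group H] (f : ∀ v, A v →* H)
    (hf : ∀ u v, Γ.Adj u v → ∀ (x : A u) (y : A v), f u x * f v y = f v y * f u x)
    (v : V) (x : A v) : lift (Γ := Γ) f hf (of v x) = f v x := by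
  have h : lift (Γ := Γ) f hf (of v x) = CoprodI.lift f (CoprodI.of x) :=
    QuotientGroup.lift_mk' (N := Subgroup.normalClosure (rels Γ A)) (φ := CoprodI.lift f) _ _
  rw [h, CoprodI.lift_of]

/-- Induction: multiply on the right by vertex elements. -/
theorem induction_right {p : GraphProd Γ A → Prop} (g : GraphProd Γ A) (h1 : p 1)
    (hm : ∀ (g : GraphProd Γ A) (v : V) (x : A v), p g → p (g * of v x)) : p g := by
  obtain ⟨m, rfl⟩ := qm_surjective g
  have key : ∀ (m : CoprodI A), ∀ g : GraphProd Γ A, p g → p (g * qm m) := by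
    intro m
    induction m using CoprodI.induction_on with
    | one => intro g hg; rw [map_one, mul_one]; exact hg
    | of i x => intro g hg; exact hm g i x hg
    | mul x y hx hy =>
      intro g hg
      rw [map_mul, ← mul_assoc]
      exact hy _ (hx _ hg)
  have := key m 1 h1
  rwa [one_mul] at this

theorem hom_ext {H : Type*} [Group H] {f g : GraphProd Γ A →* H}
    (h : ∀ v x, f (of v x) = g (of v x)) : f = g := by
  ext y
  induction y using induction_right with
  | h1 => simp
  | hm g v x hg => simp [hg, h]

/-- The subgroup generated by the vertex groups in `T`. -/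
def sub (T : Set V) : Subgroup (GraphProd Γ A) :=
  Subgroup.closure {g | ∃ v ∈ T, ∃ x : A v, g = of v x}

theorem of_mem_sub {T : Set V} {v : V} (h : v ∈ T) (x : A v) : (of v x : GraphProd Γ A) ∈ sub T :=
  Subgroup.subset_closure ⟨v, h, x, rfl⟩

theorem sub_mono {T T' : Set V} (h : T ⊆ T') : (sub T : Subgroup (GraphProd Γ A)) ≤ sub T' := by
  apply Subgroup.closure_mono
  rintro g ⟨v, hv, x, rfl⟩
  exact ⟨v, h hv, x, rfl⟩

/-- Induction on elements of `sub T`. -/
theorem sub_induction {T : Set V} {p : GraphProd Γ A → Prop} {g : GraphProd Γ A} (hg : g ∈ sub T)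
    (h1 : p 1) (hm : ∀ (g : GraphProd Γ A) (v : V) (x : A v), v ∈ T → g ∈ sub T → p g →
      p (g * of v x)) : p g := by
  have : g ∈ sub T ∧ p g := by
    unfold sub at hg
    induction hg using Subgroup.closure_induction_right with
    | one => exact ⟨one_mem _, h1⟩
    | mul_right x hx y hy ih =>
      obtain ⟨v, hv, z, rfl⟩ := hy
      exact ⟨mul_mem ih.1 (of_mem_sub hv z), hm _ v z hv ih.1 ih.2⟩
    | mul_inv_cancel x hx y hy ih =>
      obtain ⟨v, hv, z, rfl⟩ := hy
      rw [← map_inv]
      exact ⟨mul_mem ih.1 (of_mem_sub hv _), hm _ v _ hv ih.1 ih.2⟩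
  exact this.2

open Classical in
/-- The retraction onto the subgroup generated by the vertex groups in `T`. -/
noncomputable def retr (T : Set V) : GraphProd Γ A →* GraphProd Γ A :=
  lift (fun v => if v ∈ T then of v else 1) (by
    intro u v h x y
    by_cases hu : u ∈ T <;> by_cases hv : v ∈ T <;> simp [hu, hv, of_comm h])

theorem retr_of_mem {T : Set V} {v : V} (h : v ∈ T) (x : A v) :
    retr T (of v x : GraphProd Γ A) = of v x := by
  simp [retr, h]

theorem retr_of_not_mem {T : Set V} {v : V} (h : v ∉ T) (x : A v) :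
    retr T (of v x : GraphProd Γ A) = 1 := by
  simp [retr, h]

theorem retr_mem (T : Set V) (g : GraphProd Γ A) : retr T g ∈ (sub T : Subgroup (GraphProd Γ A)) := by
  induction g using induction_right with
  | h1 => rw [map_one]; exact one_mem _
  | hm g v x hg =>
    rw [map_mul]
    by_cases hv : v ∈ T
    · rw [retr_of_mem hv]; exact mul_mem hg (of_mem_sub hv x)
    · rw [retr_of_not_mem hv, mul_one]; exact hg

theorem retr_eq_self {T : Set V} {g : GraphProd Γ A} (h : g ∈ (sub T : Subgroup (GraphProd Γ A))) :
    retr T g = g := by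
  refine sub_induction (p := fun g => retr T g = g) h (map_one _) ?_
  intro g v x hv hg ih
  rw [map_mul, ih, retr_of_mem hv]

/-- The retraction to `T` maps `sub T'` into `sub (T ∩ T')`. -/
theorem retr_mem_inter {T T' : Set V} {g : GraphProd Γ A}
    (h : g ∈ (sub T' : Subgroup (GraphProd Γ A))) :
    retr T g ∈ (sub (T ∩ T') : Subgroup (GraphProd Γ A)) := by
  refine sub_induction (p := fun g => retr T g ∈ (sub (T ∩ T') : Subgroup (GraphProd Γ A))) h
    (by rw [map_one]; exact one_mem _) ?_
  intro g v x hv hg ih
  rw [map_mul]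
  by_cases hv' : v ∈ T
  · rw [retr_of_mem hv']
    exact mul_mem ih (of_mem_sub (show v ∈ T ∩ T' from ⟨hv', hv⟩) x)
  · rw [retr_of_not_mem hv', mul_one]; exact ih

theorem sub_inter {T T' : Set V} {g : GraphProd Γ A}
    (h : g ∈ (sub T : Subgroup (GraphProd Γ A))) (h' : g ∈ (sub T' : Subgroup (GraphProd Γ A))) :
    g ∈ (sub (T ∩ T') : Subgroup (GraphProd Γ A)) := by
  have := retr_mem_inter (T := T) h'
  rwa [retr_eq_self h] at this

theorem sub_empty : (sub (∅ : Set V) : Subgroup (GraphProd Γ A)) = ⊥ := by
  unfold sub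
  rw [Subgroup.closure_eq_bot_iff]
  rintro g ⟨v, hv, _⟩
  exact absurd hv (Set.notMem_empty v)

theorem retr_eq_one_of_disjoint {T T' : Set V} (hd : Disjoint T T') {g : GraphProd Γ A}
    (h : g ∈ (sub T' : Subgroup (GraphProd Γ A))) : retr T g = 1 := by
  have := retr_mem_inter (T := T) h
  rw [Set.disjoint_iff_inter_eq_empty.mp hd, sub_empty] at this
  exact Subgroup.mem_bot.mp this

/-- Elements of `sub T` and `sub T'` commute if all of `T` is adjacent to all of `T'`. -/
theorem sub_comm {T T' : Set V} (hT : ∀ u ∈ T, ∀ v ∈ T', Γ.Adj u v) {g h : GraphProd Γ A}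
    (hg : g ∈ (sub T : Subgroup (GraphProd Γ A))) (hh : h ∈ (sub T' : Subgroup (GraphProd Γ A))) :
    g * h = h * g := by
  have h1 : ∀ u ∈ T, ∀ x : A u, (of u x : GraphProd Γ A) * h = h * of u x := by
    intro u hu x
    refine sub_induction (p := fun h => (of u x : GraphProd Γ A) * h = h * of u x) hh (by simp) ?_
    intro g v y hv hg ih
    rw [← mul_assoc, ih, mul_assoc, of_comm (hT u hu v hv), mul_assoc]
  refine sub_induction (p := fun g => g * h = h * g) hg (by simp) ?_
  intro g v y hv hg ih
  rw [mul_assoc, h1 v hv, ← mul_assoc, ih, mul_assoc]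

open Classical in
/-- The projection to a vertex group. -/
noncomputable def proj (v : V) : GraphProd Γ A →* A v :=
  lift (fun u => if h : u = v then h ▸ MonoidHom.id (A u) else 1) (by
    intro u w h x y
    by_cases hu : u = v
    · subst hu
      have hw : ¬ w = u := fun hw => Γ.loopless.irrefl u (hw ▸ h)
      simp [hw]
    · simp [hu])

@[simp] theorem proj_of (v : V) (x : A v) : proj v (of v x : GraphProd Γ A) = x := by
  simp [proj]

theorem of_injective (v : V) : Function.Injective (of v : A v → GraphProd Γ A) := by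
  intro x y h
  have := congrArg (proj v) h
  simpa using this

/-- **Potential lemma**: a compatible system of increments integrates to a function. -/
theorem exists_potential {F : Type*} [Group F] (δ : ∀ v, GraphProd Γ A → A v → F)
    (h1 : ∀ v g (x y : A v), δ v g (x * y) = δ v g x * δ v (g * of v x) y)
    (h2 : ∀ u v, Γ.Adj u v → ∀ g (x : A u) (y : A v),
      δ u g x * δ v (g * of u x) y = δ v g y * δ u (g * of v y) x) :
    ∃ Ψ : GraphProd Γ A → F, Ψ 1 = 1 ∧ ∀ v g (x : A v), Ψ (g * of v x) = Ψ g * δ v g x := by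
  classical
  have h0 : ∀ v g, δ v g 1 = 1 := by
    intro v g
    have := h1 v g 1 1
    rw [mul_one, map_one, mul_one] at this
    exact (mul_eq_left.mp this.symm)
  -- the group acts on the right on `G × F`
  let act : ∀ v, A v → GraphProd Γ A × F → GraphProd Γ A × F :=
    fun v x p => (p.1 * of v x, p.2 * δ v p.1 x)
  have hact1 : ∀ v p, act v 1 p = p := by
    intro v p; simp [act, h0]
  have hactm : ∀ v (x y : A v) p, act v (x * y) p = act v y (act v x p) := by
    intro v x y p; simp [act, h1, mul_assoc]
  let φ : ∀ v, A v →* (Equiv.Perm (GraphProd Γ A × F)) := fun v =>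
    { toFun := fun x =>
        { toFun := act v x⁻¹
          invFun := act v x
          left_inv := by intro p; rw [← hactm]; simp [hact1]
          right_inv := by intro p; rw [← hactm]; simp [hact1] }
      map_one' := by ext1 p; simp [hact1]
      map_mul' := by
        intro x y
        ext1 p
        simp only [Equiv.coe_fn_mk, Equiv.Perm.mul_apply, mul_inv_rev]
        rw [hactm] }
  have hφ : ∀ v (x : A v) p, φ v x p = act v x⁻¹ p := fun v x p => rfl
  let Φ : GraphProd Γ A →* Equiv.Perm (GraphProd Γ A × F) := lift φ (by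
    intro u v h x y
    ext1 p
    simp only [Equiv.Perm.mul_apply, hφ]
    simp only [act, Prod.mk.injEq]
    constructor
    · rw [mul_assoc, mul_assoc, of_comm h]
    · rw [mul_assoc, mul_assoc, h2 u v h])
  have hΦ : ∀ v (x : A v) p, Φ (of v x) p = act v x⁻¹ p := by
    intro v x p
    simp only [Φ, lift_of]
    rfl
  have hfst : ∀ g : GraphProd Γ A, ∀ p, (Φ g⁻¹ p).1 = p.1 * g := by
    intro g
    induction g using induction_right with
    | h1 => intro p; simp
    | hm g v x ih =>
      intro p
      rw [mul_inv_rev, map_mul, Equiv.Perm.mul_apply, ← map_inv, hΦ, inv_inv]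
      simp only [act]
      rw [ih, mul_assoc]
  refine ⟨fun g => (Φ g⁻¹ (1, 1)).2, by simp, ?_⟩
  intro v g x
  have := hfst g (1, 1)
  simp only [mul_inv_rev, map_mul, Equiv.Perm.mul_apply]
  rw [← map_inv, hΦ, inv_inv]
  simp only [act]
  rw [this, one_mul]

/-- Two potentials for the same increments agree. -/
theorem potential_unique {F : Type*} [Group F] (δ : ∀ v, GraphProd Γ A → A v → F)
    {Ψ Ψ' : GraphProd Γ A → F} (h : Ψ 1 = Ψ' 1)
    (h1 : ∀ v g (x : A v), Ψ (g * of v x) = Ψ g * δ v g x)
    (h2 : ∀ v g (x : A v), Ψ' (g * of v x) = Ψ' g * δ v g x) : Ψ = Ψ' := by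
  ext g
  induction g using induction_right with
  | h1 => exact h
  | hm g v x ih => rw [h1, h2, ih]

/-- The star of a vertex. -/
def st (Γ : SimpleGraph V) (v : V) : Set V := {u | u = v ∨ Γ.Adj v u}

open Classical in
/-- **Wall functions**: for a set `s` invariant under right multiplication by the star of `v`. -/
theorem exists_wall (v : V) (s : Set (GraphProd Γ A))
    (hs : ∀ u ∈ st Γ v, ∀ (x : A u) g, g * of u x ∈ s ↔ g ∈ s) :
    ∃ H : GraphProd Γ A → GraphProd Γ A, H 1 = 1 ∧
      (∀ g (x : A v), H (g * of v x) = H g * (if g ∈ s then of v x else 1)) ∧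
      (∀ u, u ≠ v → ∀ g (x : A u), H (g * of u x) = H g) := by
  obtain ⟨H, h1, h2⟩ := exists_potential (Γ := Γ) (A := A) (F := GraphProd Γ A)
    (fun u g x => if u = v ∧ g ∈ s then of u x else 1)
    (by
      intro u g x y
      by_cases hu : u = v
      · subst hu
        have := hs u (Or.inl rfl) x g
        by_cases hg : g ∈ s <;> simp [this, hg]
      · simp [hu])
    (by
      intro a b hab g x y
      by_cases ha : a = v
      · subst ha
        have hb : ¬ b = a := fun hb => Γ.loopless.irrefl a (hb ▸ hab)
        have := hs b (Or.inr hab) y g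
        simp [hb, this]
      · by_cases hb : b = v
        · subst hb
          have := hs a (Or.inr hab.symm) x g
          simp [ha, this]
        · simp [ha, hb])
  refine ⟨H, h1, ?_, ?_⟩
  · intro g x
    rw [h2]
    simp
  · intro u hu g x
    rw [h2]
    simp [hu]

end GP

end Pool.Agent.R646.Q
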