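import Pool.Agent.R646.Q.GP

set_option autoImplicit false

/-!
# Word balls, neighbourhoods, linear growth
-/

namespace Pool.Agent.R646.Q

section balls

variable {G H : Type*} [Group G] [Group H]

/-- Products of at most `n` elements of `S`. -/
def Bl (S : Set G) (n : ℕ) : Set G :=
  {g | ∃ l : List G, l.length ≤ n ∧ (∀ x ∈ l, x ∈ S) ∧ l.prod = g}

theorem one_mem_Bl (S : Set G) (n : ℕ) : (1 : G) ∈ Bl S n := ⟨[], by simp, by simp, by simp⟩

theorem gen_mem_Bl {S : Set G} {x : G} (hx : x ∈ S) : x ∈ Bl S 1 :=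
  ⟨[x], by simp, by simpa using hx, by simp⟩

theorem Bl_mono {S : Set G} {m n : ℕ} (h : m ≤ n) : Bl S m ⊆ Bl S n := by
  rintro g ⟨l, hl, h1, h2⟩
  exact ⟨l, hl.trans h, h1, h2⟩

theorem Bl_mono_set {S T : Set G} (h : S ⊆ T) (n : ℕ) : Bl S n ⊆ Bl T n := by
  rintro g ⟨l, hl, h1, h2⟩
  exact ⟨l, hl, fun x hx => h (h1 x hx), h2⟩

theorem mul_mem_Bl {S : Set G} {m n : ℕ} {a b : G} (ha : a ∈ Bl S m) (hb : b ∈ Bl S n) :
    a * b ∈ Bl S (m + n) := by
  obtain ⟨l, hl, h1, h2⟩ := ha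
  obtain ⟨l', hl', h1', h2'⟩ := hb
  refine ⟨l ++ l', by simp; omega, ?_, by simp [h2, h2']⟩
  intro x hx
  rcases List.mem_append.mp hx with h | h
  · exact h1 x h
  · exact h1' x h

theorem pow_mem_Bl {S : Set G} {m : ℕ} {a : G} (ha : a ∈ Bl S m) (n : ℕ) :
    a ^ n ∈ Bl S (m * n) := by
  induction n with
  | zero => rw [pow_zero]; exact one_mem_Bl S _
  | succ n ih => rw [pow_succ, Nat.mul_succ]; exact mul_mem_Bl ih ha

theorem inv_mem_Bl {S : Set G} (hS : ∀ x ∈ S, x⁻¹ ∈ S) {n : ℕ} {a : G} (ha : a ∈ Bl S n) :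
    a⁻¹ ∈ Bl S n := by
  obtain ⟨l, hl, h1, h2⟩ := ha
  refine ⟨(l.map (fun x => x⁻¹)).reverse, by simpa using hl, ?_, ?_⟩
  · intro x hx
    simp only [List.mem_reverse, List.mem_map] at hx
    obtain ⟨y, hy, rfl⟩ := hx
    exact hS y (h1 y hy)
  · rw [← h2, List.prod_inv_reverse]

theorem Bl_zero (S : Set G) : Bl S 0 = {1} := by
  ext g
  constructor
  · rintro ⟨l, hl, -, h2⟩
    have : l = [] := List.length_eq_zero_iff.mp (Nat.le_zero.mp hl)
    subst this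
    simpa using h2.symm
  · rintro rfl
    exact one_mem_Bl S 0

/-- Peeling off the last letter. -/
theorem Bl_succ {S : Set G} {n : ℕ} {g : G} (hg : g ∈ Bl S (n + 1)) :
    g ∈ Bl S n ∨ ∃ h ∈ Bl S n, ∃ x ∈ S, g = h * x := by
  obtain ⟨l, hl, h1, h2⟩ := hg
  rcases List.eq_nil_or_concat l with rfl | ⟨l', x, rfl⟩
  · left
    rw [← h2]
    exact one_mem_Bl S n
  · right
    refine ⟨l'.prod, ⟨l', ?_, ?_, rfl⟩, x, h1 x (by simp), ?_⟩
    · simp at hl; omega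
    · intro y hy; exact h1 y (by simp [hy])
    · rw [← h2]; simp

/-- Peeling off the first letter. -/
theorem Bl_succ' {S : Set G} {n : ℕ} {g : G} (hg : g ∈ Bl S (n + 1)) :
    g ∈ Bl S n ∨ ∃ h ∈ Bl S n, ∃ x ∈ S, g = x * h := by
  obtain ⟨l, hl, h1, h2⟩ := hg
  cases l with
  | nil =>
    left
    rw [← h2]
    exact one_mem_Bl S n
  | cons x l' =>
    right
    refine ⟨l'.prod, ⟨l', ?_, ?_, rfl⟩, x, h1 x (by simp), ?_⟩
    · simp at hl; omega
    · intro y hy; exact h1 y (by simp [hy])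
    · rw [← h2]; simp

theorem Bl_finite {S : Set G} (hS : S.Finite) (n : ℕ) : (Bl S n).Finite := by
  induction n with
  | zero => rw [Bl_zero]; exact Set.finite_singleton 1
  | succ n ih =>
    have : Bl S (n + 1) ⊆ Bl S n ∪ Set.image2 (fun a b => a * b) (Bl S n) S := by
      intro g hg
      rcases Bl_succ hg with h | ⟨h, hh, x, hx, rfl⟩
      · exact Or.inl h
      · exact Or.inr ⟨h, hh, x, hx, rfl⟩
    exact (ih.union (ih.image2 _ hS)).subset this

theorem exists_mem_Bl {S : Set G} (hS : ∀ x ∈ S, x⁻¹ ∈ S) (hc : Subgroup.closure S = ⊤) (g : G) :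
    ∃ n, g ∈ Bl S n := by
  have hg : g ∈ Subgroup.closure S := hc ▸ Subgroup.mem_top g
  induction hg using Subgroup.closure_induction with
  | mem x hx => exact ⟨1, gen_mem_Bl hx⟩
  | one => exact ⟨0, one_mem_Bl S 0⟩
  | mul x y _ _ hx hy =>
    obtain ⟨m, hm⟩ := hx
    obtain ⟨n, hn⟩ := hy
    exact ⟨m + n, mul_mem_Bl hm hn⟩
  | inv x _ hx =>
    obtain ⟨m, hm⟩ := hx
    exact ⟨m, inv_mem_Bl hS hm⟩

theorem map_mem_Bl {S : Set G} {T : Set H} (φ : G →* H) (h : ∀ x ∈ S, φ x ∈ T ∨ φ x = 1)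
    {n : ℕ} {g : G} (hg : g ∈ Bl S n) : φ g ∈ Bl T n := by
  induction n generalizing g with
  | zero =>
    rw [Bl_zero] at hg
    rw [Set.mem_singleton_iff.mp hg, map_one]
    exact one_mem_Bl T 0
  | succ n ih =>
    rcases Bl_succ hg with h' | ⟨a, ha, x, hx, rfl⟩
    · exact Bl_mono (Nat.le_succ n) (ih h')
    · rw [map_mul]
      rcases h x hx with h1 | h1
      · exact mul_mem_Bl (ih ha) (gen_mem_Bl h1)
      · rw [h1, mul_one]; exact Bl_mono (Nat.le_succ n) (ih ha)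

/-- Balls with respect to two generating sets. -/
theorem Bl_compare {S T : Set G} (hS : S.Finite) (hT : ∀ x ∈ T, x⁻¹ ∈ T)
    (hc : Subgroup.closure T = ⊤) : ∃ k : ℕ, ∀ n, Bl S n ⊆ Bl T (k * n) := by
  classical
  choose f hf using exists_mem_Bl hT hc
  refine ⟨hS.toFinset.sup f, ?_⟩
  intro n
  induction n with
  | zero => intro g hg; rw [Bl_zero] at hg; rw [Set.mem_singleton_iff.mp hg]; exact one_mem_Bl T _
  | succ n ih =>
    intro g hg
    rcases Bl_succ hg with h | ⟨h, hh, x, hx, rfl⟩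
    · exact Bl_mono (Nat.mul_le_mul_left _ (Nat.le_succ n)) (ih h)
    · rw [Nat.mul_succ]
      refine mul_mem_Bl (ih hh) (Bl_mono ?_ (hf x))
      exact Finset.le_sup (f := f) (hS.mem_toFinset.mpr hx)

/-- The `n`-neighbourhood of a set. -/
def nb (S : Set G) (s : Set G) (n : ℕ) : Set G := {g | ∃ b ∈ Bl S n, g * b ∈ s}

theorem nb_mono {S : Set G} {s : Set G} {m n : ℕ} (h : m ≤ n) : nb S s m ⊆ nb S s n := by
  rintro g ⟨b, hb, h1⟩
  exact ⟨b, Bl_mono h hb, h1⟩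

theorem subset_nb (S : Set G) (s : Set G) (n : ℕ) : s ⊆ nb S s n := by
  intro g hg
  exact ⟨1, one_mem_Bl S n, by simpa using hg⟩

/-- moving inside neighbourhoods -/
theorem nb_mul {S : Set G} {s : Set G} {m n : ℕ} {g h : G}
    (hg : g ∈ nb S s n) (hb : h⁻¹ * g ∈ Bl S m) : h ∈ nb S s (m + n) := by
  obtain ⟨b, hb1, hb2⟩ := hg
  refine ⟨h⁻¹ * g * b, mul_mem_Bl hb hb1, ?_⟩
  have : h * (h⁻¹ * g * b) = g * b := by group
  rw [this]
  exact hb2

/-- Linear growth with constant `C`. -/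
def Lin (S : Set G) (C : ℕ) (L : Set G) : Prop :=
  ∀ (g : G) (n : ℕ), {p | p ∈ L ∧ g⁻¹ * p ∈ Bl S n}.ncard ≤ C * (n + 1)

theorem finite_inter_ball {S : Set G} (hS : S.Finite) (L : Set G) (g : G) (n : ℕ) :
    {p | p ∈ L ∧ g⁻¹ * p ∈ Bl S n}.Finite := by
  apply ((Bl_finite hS n).image (fun b => g * b)).subset
  rintro p ⟨-, hp⟩
  exact ⟨g⁻¹ * p, hp, by simp⟩

theorem Lin_of_finite {S : Set G} {L : Set G} (hL : L.Finite) : Lin S L.ncard L := by
  intro g n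
  calc {p | p ∈ L ∧ g⁻¹ * p ∈ Bl S n}.ncard ≤ L.ncard := Set.ncard_le_ncard (fun p hp => hp.1) hL
    _ = L.ncard * 1 := (mul_one _).symm
    _ ≤ _ := Nat.mul_le_mul_left _ (by omega)

/-- A set all of whose points are near points of a linearly growing set grows linearly. -/
theorem Lin_nb {S : Set G} (hS : S.Finite) {C : ℕ} {L : Set G}
    (hL : Lin S C L) (m : ℕ) : Lin S (C * (m + 1) * (Bl S m).ncard) (nb S L m) := by
  intro g n
  have h1 : {p | p ∈ nb S L m ∧ g⁻¹ * p ∈ Bl S n} ⊆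
      Set.image2 (fun a b => a * b⁻¹) {p | p ∈ L ∧ g⁻¹ * p ∈ Bl S (n + m)} (Bl S m) := by
    rintro p ⟨⟨b, hb, hpb⟩, hp⟩
    refine ⟨p * b, ⟨hpb, ?_⟩, b, hb, by simp⟩
    rw [← mul_assoc]
    exact mul_mem_Bl hp hb
  have hf1 := finite_inter_ball hS L g (n + m)
  have hf2 := Bl_finite hS m
  calc {p | p ∈ nb S L m ∧ g⁻¹ * p ∈ Bl S n}.ncard ≤ _ := Set.ncard_le_ncard h1 (hf1.image2 _ hf2)
    _ ≤ {p | p ∈ L ∧ g⁻¹ * p ∈ Bl S (n + m)}.ncard * (Bl S m).ncard := by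
        have : Set.image2 (fun a b => a * b⁻¹) {p | p ∈ L ∧ g⁻¹ * p ∈ Bl S (n + m)} (Bl S m) =
          (fun q : G × G => q.1 * q.2⁻¹) '' ({p | p ∈ L ∧ g⁻¹ * p ∈ Bl S (n + m)} ×ˢ (Bl S m)) := by
          ext x; simp [Set.mem_image2, Set.mem_image]
          constructor
          · rintro ⟨a, ha, b, hb, h⟩; exact ⟨a, b, ⟨ha, hb⟩, h⟩
          · rintro ⟨a, b, ⟨ha, hb⟩, h⟩; exact ⟨a, ha, b, hb, h⟩
        rw [this]
        refine (Set.ncard_image_le (hf1.prod hf2)).trans ?_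
        rw [Set.ncard_prod]
    _ ≤ (C * (n + m + 1)) * (Bl S m).ncard := Nat.mul_le_mul_right _ (hL g _)
    _ ≤ C * (m + 1) * (Bl S m).ncard * (n + 1) := by
        have : n + m + 1 ≤ (m + 1) * (n + 1) := by nlinarith
        calc (C * (n + m + 1)) * (Bl S m).ncard ≤ (C * ((m + 1) * (n + 1))) * (Bl S m).ncard :=
              Nat.mul_le_mul_right _ (Nat.mul_le_mul_left _ this)
          _ = _ := by ring

end balls

namespace GP

variable {V : Type} {Γ : SimpleGraph V} {A : V → Type} [∀ v, Group (A v)]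

/-- The vertex elements over a set of vertices. -/
def gens (T : Set V) : Set (GraphProd Γ A) := {g | ∃ v ∈ T, ∃ x : A v, g = of v x}

theorem gens_inv (T : Set V) : ∀ x ∈ (gens T : Set (GraphProd Γ A)), x⁻¹ ∈ (gens T : Set (GraphProd Γ A)) := by
  rintro _ ⟨v, hv, x, rfl⟩
  exact ⟨v, hv, x⁻¹, (map_inv _ _).symm⟩

theorem gens_mono {T T' : Set V} (h : T ⊆ T') :
    (gens T : Set (GraphProd Γ A)) ⊆ gens T' := by
  rintro _ ⟨v, hv, x, rfl⟩
  exact ⟨v, h hv, x, rfl⟩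

theorem Bl_gens_sub (T : Set V) (n : ℕ) :
    Bl (gens T) n ⊆ ((sub T : Subgroup (GraphProd Γ A)) : Set (GraphProd Γ A)) := by
  rintro g ⟨l, -, h1, rfl⟩
  refine Subgroup.list_prod_mem _ (fun x hx => ?_)
  exact Subgroup.subset_closure (h1 x hx)

theorem gens_finite [Finite V] [∀ v, Finite (A v)] (T : Set V) :
    (gens T : Set (GraphProd Γ A)).Finite := by
  have : (gens T : Set (GraphProd Γ A)) ⊆ Set.range (fun p : Σ v, A v => of p.1 p.2) := by
    rintro _ ⟨v, hv, x, rfl⟩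
    exact ⟨⟨v, x⟩, rfl⟩
  exact (Set.finite_range _).subset this

theorem closure_gens_univ : Subgroup.closure (gens Set.univ : Set (GraphProd Γ A)) = ⊤ := by
  rw [eq_top_iff]
  intro g _
  induction g using induction_right with
  | h1 => exact one_mem _
  | hm g v x ih => exact mul_mem (ih trivial) (Subgroup.subset_closure ⟨v, trivial, x, rfl⟩)

theorem exists_Bl (g : GraphProd Γ A) : ∃ n, g ∈ Bl (gens Set.univ) n :=
  exists_mem_Bl (gens_inv _) closure_gens_univ g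

theorem exists_Bl_sub {T : Set V} {g : GraphProd Γ A}
    (hg : g ∈ (sub T : Subgroup (GraphProd Γ A))) : ∃ n, g ∈ Bl (gens T) n := by
  refine sub_induction (p := fun g => ∃ n, g ∈ Bl (gens T) n) hg ⟨0, one_mem_Bl _ _⟩ ?_
  rintro g v x hv - ⟨n, hn⟩
  exact ⟨n + 1, mul_mem_Bl hn (gen_mem_Bl ⟨v, hv, x, rfl⟩)⟩

theorem retr_mem_Bl {T : Set V} {n : ℕ} {g : GraphProd Γ A} (hg : g ∈ Bl (gens Set.univ) n) :
    retr T g ∈ Bl (gens T) n := by
  refine map_mem_Bl (retr T) ?_ hg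
  rintro _ ⟨v, -, x, rfl⟩
  by_cases hv : v ∈ T
  · left; rw [retr_of_mem hv]; exact ⟨v, hv, x, rfl⟩
  · right; exact retr_of_not_mem hv x

/-- A function constant across all edges starting at points of a ball that avoid `s`. -/
theorem const_on_ball {X : Type*} {S : Set (GraphProd Γ A)} {s : Set (GraphProd Γ A)}
    {χ : GraphProd Γ A → X}
    (hχ : ∀ g, ∀ x ∈ S, g ∉ s → g * x ∉ s → χ (g * x) = χ g) {g : GraphProd Γ A} {n : ℕ}
    (hg : ∀ b ∈ Bl S n, g * b ∉ s) : ∀ b ∈ Bl S n, χ (g * b) = χ g := by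
  induction n with
  | zero => intro b hb; rw [Bl_zero] at hb; rw [Set.mem_singleton_iff.mp hb, mul_one]
  | succ n ih =>
    intro b hb
    have ih' := ih (fun b hb => hg b (Bl_mono (Nat.le_succ n) hb))
    rcases Bl_succ hb with h | ⟨h, hh, x, hx, rfl⟩
    · exact ih' b h
    · rw [← mul_assoc, hχ (g * h) x hx, ih' h hh]
      · exact hg h (Bl_mono (Nat.le_succ n) hh)
      · rw [mul_assoc]; exact hg _ hb

end GP

end Pool.Agent.R646.Q
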