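import Pool.Agent.R646.Q.Lines

set_option autoImplicit false

/-!
# Quasi-isometries permute lines and pages
-/

namespace Pool.Agent.R646.Q

/-- Quasi-isometry data between groups with generating sets, in terms of balls. -/
structure QId (W G : Type) [Group W] [Group G] (T : Set W) (S : Set G) where
  f : W → G
  a : ℕ
  c : ℕ
  q1 : ∀ x y n, x⁻¹ * y ∈ Bl T n → (f x)⁻¹ * f y ∈ Bl S (a * n + c)
  q2 : ∀ x y n, (f x)⁻¹ * f y ∈ Bl S n → x⁻¹ * y ∈ Bl T (a * n + c)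
  q3 : ∀ g, ∃ x, (f x)⁻¹ * g ∈ Bl S c
  finT : T.Finite
  invT : ∀ x ∈ T, x⁻¹ ∈ T

/-- counting with fibres -/
theorem ncard_fiber {α G : Type*} [Group G] {P : Set G} {Q : Set α} {B : Set G} (φ : G → α)
    (hQ : Q.Finite) (hB : B.Finite) (h1 : ∀ p ∈ P, φ p ∈ Q)
    (h2 : ∀ p ∈ P, ∀ p' ∈ P, φ p = φ p' → p⁻¹ * p' ∈ B) : P.ncard ≤ Q.ncard * B.ncard := by
  classical
  let s : α → G := fun q => if h : ∃ p ∈ P, φ p = q then h.choose else 1
  have hsub : P ⊆ (fun q : α × G => s q.1 * q.2) '' (Q ×ˢ B) := by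
    intro p hp
    have hex : ∃ p' ∈ P, φ p' = φ p := ⟨p, hp, rfl⟩
    have hs : s (φ p) = hex.choose := by simp only [s, dif_pos hex]
    refine ⟨(φ p, (s (φ p))⁻¹ * p), ⟨h1 p hp, ?_⟩, by simp⟩
    simp only
    rw [hs]
    exact h2 _ hex.choose_spec.1 p hp hex.choose_spec.2
  calc P.ncard ≤ _ := Set.ncard_le_ncard hsub ((hQ.prod hB).image _)
    _ ≤ (Q ×ˢ B).ncard := Set.ncard_image_le (hQ.prod hB)
    _ = _ := Set.ncard_prod

/-- A function constant across edges avoiding `s` is constant on balls avoiding `s`. -/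
theorem const_ball {G X : Type*} [Group G] {S s : Set G} {χ : G → X}
    (hχ : ∀ g, g ∉ s → ∀ x ∈ S, χ (g * x) = χ g) {g : G} {n : ℕ}
    (hg : g ∉ nb S s n) : ∀ b ∈ Bl S n, χ (g * b) = χ g := by
  induction n with
  | zero => intro b hb; rw [Bl_zero] at hb; rw [Set.mem_singleton_iff.mp hb, mul_one]
  | succ n ih =>
    intro b hb
    have ih' := ih (fun h => hg (nb_mono (Nat.le_succ n) h))
    rcases Bl_succ hb with h | ⟨h, hh, x, hx, rfl⟩
    · exact ih' b h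
    · rw [← mul_assoc, hχ (g * h) ?_ x hx, ih' h hh]
      intro hin
      exact hg ⟨h, Bl_mono (Nat.le_succ n) hh, hin⟩

namespace LS

variable {G : Type} [Group G] {S : Set G} (Y : LS G S)

theorem pg_near {ω : Y.Λ} {g b : G} {n : ℕ} (hg : g ∉ nb S (Y.c ω) n) (hb : b ∈ Bl S n) :
    Y.pg ω (g * b) = Y.pg ω g :=
  const_ball (χ := Y.pg ω) (fun g hg x hx => Y.edge ω g hg x hx) hg b hb

theorem pg_near' {ω : Y.Λ} {g h : G} {n : ℕ} (hg : g ∉ nb S (Y.c ω) n) (hb : g⁻¹ * h ∈ Bl S n) :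
    Y.pg ω h = Y.pg ω g := by
  have := Y.pg_near hg hb
  rwa [mul_inv_cancel_left] at this

theorem nonempty (ω : Y.Λ) : ∃ g, g ∈ Y.c ω := by
  obtain ⟨g, hg, -⟩ := Y.on ω 1
  exact ⟨g, hg⟩

theorem range_finite (ω : Y.Λ) : (Set.range (Y.pg ω)).Finite := by
  apply Set.finite_of_ncard_ne_zero
  rcases Y.val ω with h | h <;> rw [h] <;> decide

end LS

section main

variable {W G : Type} [Group W] [Group G] {T : Set W} {S : Set G} (Y : LS G S) (q : QId W G T S)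

/-- scaling -/
def QId.e (n : ℕ) : ℕ := q.a * n + q.c

theorem QId.e_mono {m n : ℕ} (h : m ≤ n) : q.e m ≤ q.e n :=
  Nat.add_le_add_right (Nat.mul_le_mul_left _ h) _

/-- moving between the two maps -/
theorem QId.move (w x y : W) {n : ℕ} (h : (q.f (w * x))⁻¹ * q.f (w * y) ∈ Bl S n) :
    (q.f x)⁻¹ * q.f y ∈ Bl S (q.e (q.e n)) := by
  have h1 := q.q2 _ _ n h
  have h2 : (w * x)⁻¹ * (w * y) = x⁻¹ * y := by group
  rw [h2] at h1
  exact q.q1 _ _ _ h1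

theorem QId.move' (w x y : W) {n : ℕ} (h : (q.f x)⁻¹ * q.f y ∈ Bl S n) :
    (q.f (w * x))⁻¹ * q.f (w * y) ∈ Bl S (q.e (q.e n)) := by
  have h1 := q.q2 _ _ n h
  have h2 : (w * x)⁻¹ * (w * y) = x⁻¹ * y := by group
  rw [← h2] at h1
  exact q.q1 _ _ _ h1

/-- An eventual property away from a line. -/
def Ev (ω : Y.Λ) (P : W → Prop) : Prop := ∃ n, ∀ x, q.f x ∉ nb S (Y.c ω) n → P x

variable {Y q}

theorem Ev.and {ω : Y.Λ} {P Q : W → Prop} (h1 : Ev Y q ω P) (h2 : Ev Y q ω Q) :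
    Ev Y q ω (fun x => P x ∧ Q x) := by
  obtain ⟨n, hn⟩ := h1
  obtain ⟨m, hm⟩ := h2
  exact ⟨max n m, fun x hx => ⟨hn x (fun h => hx (nb_mono (le_max_left _ _) h)),
    hm x (fun h => hx (nb_mono (le_max_right _ _) h))⟩⟩

theorem Ev.mono {ω : Y.Λ} {P Q : W → Prop} (h1 : Ev Y q ω P) (h2 : ∀ x, P x → Q x) :
    Ev Y q ω Q := by
  obtain ⟨n, hn⟩ := h1
  exact ⟨n, fun x hx => h2 x (hn x hx)⟩

variable (Y q)

/-- `x ↦ w x` moves away from `ω'` when `x` moves away from `ω`. -/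
def Tends (w : W) (ω ω' : Y.Λ) : Prop :=
  ∀ n', ∃ n, ∀ x, q.f (w * x) ∈ nb S (Y.c ω') n' → q.f x ∈ nb S (Y.c ω) n

variable {Y q}

theorem Tends.ev {w : W} {ω ω' : Y.Λ} (h : Tends Y q w ω ω') {P : W → Prop} (hP : Ev Y q ω' P) :
    Ev Y q ω (fun x => P (w * x)) := by
  obtain ⟨n', hn'⟩ := hP
  obtain ⟨n, hn⟩ := h n'
  exact ⟨n, fun x hx => hn' _ (fun h' => hx (hn x h'))⟩

theorem Tends.comp {w w' : W} {ω ω' ω'' : Y.Λ} (h : Tends Y q w ω ω') (h' : Tends Y q w' ω' ω'') :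
    Tends Y q (w' * w) ω ω'' := by
  intro n''
  obtain ⟨n', hn'⟩ := h' n''
  obtain ⟨n, hn⟩ := h n'
  exact ⟨n, fun x hx => hn x (hn' _ (by rwa [mul_assoc] at hx))⟩

theorem Tends.one_eq {ω ω' : Y.Λ} (h : Tends Y q 1 ω ω') : ω' = ω := by
  obtain ⟨n, hn⟩ := h q.c
  refine Y.iso ω' ω (q.c + n) ?_
  intro y hy
  obtain ⟨x, hx⟩ := q.q3 y
  have h1 : q.f (1 * x) ∈ nb S (Y.c ω') q.c := by
    rw [one_mul]
    exact ⟨_, hx, by rwa [mul_inv_cancel_left]⟩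
  refine nb_mul (hn x h1) ?_
  have := inv_mem_Bl Y.invS hx
  rwa [mul_inv_rev, inv_inv] at this

/-- Deep points in a page. -/
theorem Ev.exists_page {ω : Y.Λ} {P : W → Prop} (h : Ev Y q ω P) (g : G) :
    ∃ x, Y.pg ω (q.f x) = Y.pg ω g ∧ P x := by
  obtain ⟨n, hn⟩ := h
  obtain ⟨g', h1, h2⟩ := Y.deep ω g (q.c + (q.c + n))
  obtain ⟨x, hx⟩ := q.q3 g'
  have hx' := inv_mem_Bl Y.invS hx
  rw [mul_inv_rev, inv_inv] at hx'
  refine ⟨x, ?_, hn x ?_⟩
  · rw [← h1]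
    refine Y.pg_near' (n := q.c) (fun h => h2 (nb_mono (by omega) h)) hx'
  · intro h
    apply h2
    exact nb_mono (by omega) (nb_mul h hx')

variable (Y q)

/-- The basic existence statement. -/
theorem basic : ∃ Φ : ℕ → ℕ, ∀ (w : W) (ω : Y.Λ), ∃ Z : Set Y.Λ,
    (∀ ω' ∈ Z, ∀ n' x, q.f (w * x) ∈ nb S (Y.c ω') n' → q.f x ∈ nb S (Y.c ω) (Φ n')) ∧
    Z.Nonempty ∧
    (∀ ω', (∀ ω'' ∈ Z, ω'' = ω') → ∃ γ : G → G,
      Ev Y q ω (fun x => Y.pg ω (q.f x) = γ (Y.pg ω' (q.f (w * x))))) := by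
  classical
  obtain ⟨C, hC⟩ := Y.lin
  set c := q.c with hc
  set c2 := q.e (q.e (c + 1 + c)) with hc2
  set K := (Bl S (c + q.e (q.e 0) + c)).ncard with hK
  set C1 := C * (c2 + 1) * (Bl S c2).ncard with hC1
  set C2 := C1 * (q.a * (q.a * (2 + 2 * c) + c) + c + 1) * K with hC2
  obtain ⟨R, hR⟩ := Y.color C2
  refine ⟨fun n' => q.e (q.e (c + (n' + R))) + c2, ?_⟩
  intro w ω
  -- the separating set
  let L : Set G := {g | ∃ x, (q.f (w * x))⁻¹ * g ∈ Bl S c ∧ q.f x ∈ nb S (Y.c ω) c2}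
  have hsec : ∀ g, ∃ x, (q.f (w * x))⁻¹ * g ∈ Bl S c := by
    intro g
    obtain ⟨x, hx⟩ := q.q3 g
    exact ⟨w⁻¹ * x, by rwa [mul_inv_cancel_left]⟩
  choose s hs using hsec
  -- neighbourhoods of `L`
  have hLnb : ∀ k x, q.f (w * x) ∈ nb S L k → q.f x ∈ nb S (Y.c ω) (q.e (q.e (c + k)) + c2) := by
    rintro k x ⟨b, hb, x', hx', hx''⟩
    have h1 : (q.f (w * x'))⁻¹ * q.f (w * x) ∈ Bl S (c + k) := by
      have : (q.f (w * x'))⁻¹ * q.f (w * x) = ((q.f (w * x'))⁻¹ * (q.f (w * x) * b)) * b⁻¹ := by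
        group
      rw [this]
      exact mul_mem_Bl hx' (inv_mem_Bl Y.invS hb)
    have h2 := q.move w x' x h1
    refine nb_mul hx'' ?_
    have := inv_mem_Bl Y.invS h2
    rwa [mul_inv_rev, inv_inv] at this
  -- growth of `L`
  have hLlin : Lin S C2 L := by
    intro g0 m
    by_cases hne : {p | p ∈ L ∧ g0⁻¹ * p ∈ Bl S m}.Nonempty
    · obtain ⟨p0, ⟨x0, hx0, hx0'⟩, hp0⟩ := hne
      have hch : ∀ p, p ∈ L → ∃ x, (q.f (w * x))⁻¹ * p ∈ Bl S c ∧ q.f x ∈ nb S (Y.c ω) c2 :=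
        fun p hp => hp
      choose! t ht1 ht2 using hch
      have hbd := ncard_fiber (P := {p | p ∈ L ∧ g0⁻¹ * p ∈ Bl S m})
        (Q := {p | p ∈ nb S (Y.c ω) c2 ∧ (q.f x0)⁻¹ * p ∈ Bl S (q.e (q.e (c + (m + m) + c)))})
        (B := Bl S (c + q.e (q.e 0) + c)) (fun p => q.f (t p))
        (finite_inter_ball Y.finS _ _ _) (Bl_finite Y.finS _) ?_ ?_
      · refine hbd.trans ?_
        have h1 := Lin_nb Y.finS (hC ω) c2 (q.f x0) (q.e (q.e (c + (m + m) + c)))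
        rw [← hC1] at h1
        have h2 : q.e (q.e (c + (m + m) + c)) + 1 ≤
            (q.a * (q.a * (2 + 2 * c) + c) + c + 1) * (m + 1) := by
          unfold QId.e
          rw [← hc]
          have e1 : c + (m + m) + c ≤ (2 + 2 * c) * (m + 1) := by nlinarith
          have e2 : q.a * (c + (m + m) + c) + c ≤ (q.a * (2 + 2 * c) + c) * (m + 1) := by
            calc q.a * (c + (m + m) + c) + c ≤ q.a * ((2 + 2 * c) * (m + 1)) + c * (m + 1) :=
                  Nat.add_le_add (Nat.mul_le_mul_left _ e1) (by nlinarith)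
              _ = _ := by ring
          calc q.a * (q.a * (c + (m + m) + c) + c) + c + 1
              ≤ q.a * ((q.a * (2 + 2 * c) + c) * (m + 1)) + c * (m + 1) + 1 * (m + 1) := by
                have := Nat.mul_le_mul_left q.a e2
                nlinarith
            _ = _ := by ring
        calc _ ≤ (C1 * (q.e (q.e (c + (m + m) + c)) + 1)) * K := Nat.mul_le_mul_right _ h1
          _ ≤ (C1 * ((q.a * (q.a * (2 + 2 * c) + c) + c + 1) * (m + 1))) * K :=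
              Nat.mul_le_mul_right _ (Nat.mul_le_mul_left _ h2)
          _ = C2 * (m + 1) := by rw [hC2]; ring
      · rintro p ⟨hp, hp'⟩
        refine ⟨ht2 p hp, ?_⟩
        apply q.move w
        have : (q.f (w * x0))⁻¹ * q.f (w * t p) = ((q.f (w * x0))⁻¹ * p0) *
          ((g0⁻¹ * p0)⁻¹ * (g0⁻¹ * p)) * ((q.f (w * t p))⁻¹ * p)⁻¹ := by group
        rw [this]
        exact mul_mem_Bl (mul_mem_Bl hx0 (mul_mem_Bl (inv_mem_Bl Y.invS hp0) hp'))
          (inv_mem_Bl Y.invS (ht1 p hp))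
      · rintro p ⟨hp, -⟩ p' ⟨hp', -⟩ heq
        have h0 : (q.f (t p))⁻¹ * q.f (t p') ∈ Bl S 0 := by
          rw [heq, inv_mul_cancel]; exact one_mem_Bl _ _
        have h1 := q.move' w _ _ h0
        have : p⁻¹ * p' = ((q.f (w * t p))⁻¹ * p)⁻¹ * ((q.f (w * t p))⁻¹ * q.f (w * t p')) *
          ((q.f (w * t p'))⁻¹ * p') := by group
        rw [this]
        exact mul_mem_Bl (mul_mem_Bl (inv_mem_Bl Y.invS (ht1 p hp)) h1) (ht1 p' hp')
    · rw [Set.not_nonempty_iff_eq_empty] at hne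
      rw [hne]; simp
  -- the colouring
  let χ : G → G := fun g => Y.pg ω (q.f (s g))
  have hχ : ∀ g, ∀ x ∈ S, g ∉ L → g * x ∉ L → χ (g * x) = χ g := by
    intro g x hx hg _
    have h1 : (q.f (w * s g))⁻¹ * q.f (w * s (g * x)) ∈ Bl S (c + 1 + c) := by
      have : (q.f (w * s g))⁻¹ * q.f (w * s (g * x)) = ((q.f (w * s g))⁻¹ * g) * x *
        ((q.f (w * s (g * x)))⁻¹ * (g * x))⁻¹ := by group
      rw [this]
      exact mul_mem_Bl (mul_mem_Bl (hs g) (gen_mem_Bl hx)) (inv_mem_Bl Y.invS (hs _))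
    have h2 := q.move w _ _ h1
    refine Y.pg_near' (n := c2) ?_ h2
    intro hin
    exact hg ⟨s g, hs g, hin⟩
  have hev : Ev Y q ω (fun x => q.f (w * x) ∉ nb S L R ∧
      χ (q.f (w * x)) = Y.pg ω (q.f x)) := by
    refine ⟨max (q.e (q.e (c + R)) + c2) (q.e (q.e c)), ?_⟩
    intro x hx
    constructor
    · intro hin
      exact hx (nb_mono (le_max_left _ _) (hLnb R x hin))
    · have h1 := q.move w _ _ (hs (q.f (w * x)))
      have h2 := inv_mem_Bl Y.invS h1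
      rw [mul_inv_rev, inv_inv] at h2
      exact Y.pg_near' (n := q.e (q.e c)) (fun h => hx (nb_mono (le_max_right _ _) h)) h2
  have hcol := hR L hLlin G χ hχ
  refine ⟨{ω' | Y.c ω' ⊆ nb S L R}, ?_, ?_, ?_⟩
  · intro ω' hω' n' x hx
    have : q.f (w * x) ∈ nb S L (n' + R) := by
      obtain ⟨b, hb, hb'⟩ := hx
      obtain ⟨b', hb1, hb2⟩ := hω' hb'
      exact ⟨b * b', mul_mem_Bl hb hb1, by rwa [← mul_assoc]⟩
    exact hLnb (n' + R) x this
  · by_contra hempty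
    rw [Set.not_nonempty_iff_eq_empty] at hempty
    have hno : ∀ ω', ¬ Y.c ω' ⊆ nb S L R := by
      intro ω' hin
      have : ω' ∈ ({ω' | Y.c ω' ⊆ nb S L R} : Set Y.Λ) := hin
      rw [hempty] at this
      exact this
    have h1 := hcol.1 hno
    have h2 : ∀ g g', Y.pg ω g = Y.pg ω g' := by
      intro g g'
      obtain ⟨x, e1, f1, g1⟩ := hev.exists_page g
      obtain ⟨x', e1', f1', g1'⟩ := hev.exists_page g'
      rw [← e1, ← e1', ← g1, ← g1']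
      exact h1 _ _ f1 f1'
    have h3 : (Set.range (Y.pg ω)) = {Y.pg ω 1} := by
      ext p
      constructor
      · rintro ⟨g, rfl⟩; exact h2 _ _
      · rintro rfl; exact ⟨1, rfl⟩
    have h4 := Y.val ω
    rw [h3, Set.ncard_singleton] at h4
    omega
  · intro ω' hω'
    obtain ⟨γ, hγ⟩ := hcol.2 ω' hω'
    refine ⟨γ, hev.mono ?_⟩
    rintro x ⟨h1, h2⟩
    rw [← h2]
    exact hγ _ h1

end main

end Pool.Agent.R646.Q
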