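import Pool.Agent.R646.Q.Act

set_option autoImplicit false

/-!
# A group generated by involutions has a line on which it permutes the pages transitively
-/

namespace Pool.Agent.R646.Q

namespace WA

variable {W : Type} [Group W] {T : Set W} (Z : WA W T)

attribute [instance] WA.aΛ WA.aE

/-- The action on sections. -/
def sm (w : W) (y : Z.Λ → Z.E) : Z.Λ → Z.E := fun ω => w • y (w⁻¹ • ω)

theorem sm_mul (w w' : W) (y : Z.Λ → Z.E) : Z.sm (w * w') y = Z.sm w (Z.sm w' y) := by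
  funext ω
  simp only [sm, mul_inv_rev, mul_smul]

theorem sm_pc (w : W) (e : Z.E) : Z.sm w (Z.pc e) = Z.pc (w • e) := by
  funext ω
  unfold sm
  by_cases h : ω = Z.ln (w • e)
  · subst h
    rw [Z.pc_self, Z.ln_smul, inv_smul_smul, Z.pc_self]
  · have h' : w⁻¹ • ω ≠ Z.ln e := by
      intro h'
      apply h
      rw [Z.ln_smul, ← h', smul_inv_smul]
    rw [Z.pc_other _ _ h, Z.pc_other _ _ h', Z.pgL_smul w _ _ h'.symm, smul_inv_smul, Z.ln_smul]

open Classical in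
/-- indicator -/
noncomputable def ind (c : Set Z.E) (e : Z.E) : ℤ := if e ∈ c then 1 else 0

/-- the counting cocycle -/
noncomputable def nn (c : Set Z.E) (y y' : Z.Λ → Z.E) : ℤ :=
  ∑ᶠ ω, (Z.ind c (y ω) - Z.ind c (y' ω))

/-- finite difference -/
def FD (y y' : Z.Λ → Z.E) : Prop := {ω | y ω ≠ y' ω}.Finite

theorem supp_finite (c : Set Z.E) {y y' : Z.Λ → Z.E} (h : Z.FD y y') :
    (Function.support (fun ω => Z.ind c (y ω) - Z.ind c (y' ω))).Finite := by
  refine h.subset ?_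
  intro ω hω h'
  apply hω
  simp only [h', sub_self]

theorem nn_add (c : Set Z.E) {y y' y'' : Z.Λ → Z.E} (h : Z.FD y y') (h' : Z.FD y' y'') :
    Z.nn c y y'' = Z.nn c y y' + Z.nn c y' y'' := by
  unfold nn
  rw [← finsum_add_distrib (Z.supp_finite c h) (Z.supp_finite c h')]
  congr 1
  funext ω
  ring

theorem nn_self (c : Set Z.E) (y : Z.Λ → Z.E) : Z.nn c y y = 0 := by
  unfold nn
  simp

theorem nn_smul {c : Set Z.E} (hc : ∀ (w : W) e, w • e ∈ c ↔ e ∈ c) (w : W) (y y' : Z.Λ → Z.E) :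
    Z.nn c (Z.sm w y) (Z.sm w y') = Z.nn c y y' := by
  have hind : ∀ e, Z.ind c (w • e) = Z.ind c e := by
    intro e
    unfold ind
    by_cases h : e ∈ c
    · rw [if_pos h, if_pos ((hc w e).mpr h)]
    · rw [if_neg h, if_neg (fun h' => h ((hc w e).mp h'))]
  unfold nn sm
  simp only [hind]
  exact finsum_comp_equiv (MulAction.toPerm w⁻¹) (f := fun ω => Z.ind c (y ω) - Z.ind c (y' ω))

theorem FD_symm {y y' : Z.Λ → Z.E} (h : Z.FD y y') : Z.FD y' y := by
  unfold FD at h ⊢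
  simpa [ne_comm] using h

theorem FD_pc (e e' : Z.E) : Z.FD (Z.pc e) (Z.pc e') := Z.seps e e'

/-- the cocycle vanishes on the group -/
theorem nn_zero {c : Set Z.E} (hc : ∀ (w : W) e, w • e ∈ c ↔ e ∈ c)
    (hW : Subgroup.closure {s : W | s * s = 1} = ⊤) (e0 : Z.E) (w : W) :
    Z.nn c (Z.pc e0) (Z.pc (w • e0)) = 0 := by
  have hadd : ∀ w w' : W, Z.nn c (Z.pc e0) (Z.pc ((w * w') • e0)) =
      Z.nn c (Z.pc e0) (Z.pc (w • e0)) + Z.nn c (Z.pc e0) (Z.pc (w' • e0)) := by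
    intro w w'
    rw [Z.nn_add c (Z.FD_pc e0 (w • e0)) (Z.FD_pc (w • e0) ((w * w') • e0))]
    congr 1
    rw [mul_smul, ← Z.sm_pc w, ← Z.sm_pc w, Z.nn_smul hc]
  have hw : w ∈ Subgroup.closure {s : W | s * s = 1} := hW ▸ Subgroup.mem_top w
  induction hw using Subgroup.closure_induction with
  | mem s hs =>
    have h := hadd s s
    have hs' : s * s = 1 := hs
    rw [hs', one_smul, Z.nn_self] at h
    omega
  | one => rw [one_smul, Z.nn_self]
  | mul x y _ _ hx hy => rw [hadd, hx, hy]; rfl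
  | inv x _ hx =>
    have h := hadd x x⁻¹
    rw [mul_inv_cancel, one_smul, Z.nn_self, hx] at h
    omega

/-- the potential -/
noncomputable def pot (c : Set Z.E) (e0 e : Z.E) : ℤ := Z.nn c (Z.pc e0) (Z.pc e)

theorem pot_inv {c : Set Z.E} (hc : ∀ (w : W) e, w • e ∈ c ↔ e ∈ c)
    (hW : Subgroup.closure {s : W | s * s = 1} = ⊤) (e0 : Z.E) (w : W) (e : Z.E) :
    Z.pot c e0 (w • e) = Z.pot c e0 e := by
  unfold pot
  rw [Z.nn_add c (Z.FD_pc e0 (w • e0)) (Z.FD_pc (w • e0) (w • e)), Z.nn_zero hc hW, zero_add,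
    ← Z.sm_pc w, ← Z.sm_pc w, Z.nn_smul hc]

theorem pot_line (c : Set Z.E) (e0 : Z.E) {e e' : Z.E} (h : Z.ln e = Z.ln e') :
    Z.pot c e0 e' + Z.ind c e' = Z.pot c e0 e + Z.ind c e := by
  have h1 : Z.nn c (Z.pc e) (Z.pc e') = Z.ind c e - Z.ind c e' := by
    unfold nn
    rw [finsum_eq_single _ (Z.ln e)]
    · rw [Z.pc_self, h, Z.pc_self]
    · intro ω hω
      rw [Z.pc_other _ _ hω, Z.pc_other _ _ (h ▸ hω), h, sub_self]
  unfold pot
  rw [Z.nn_add c (Z.FD_pc e0 e) (Z.FD_pc e e'), h1]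
  ring

theorem pot_piece (c : Set Z.E) (e0 : Z.E) {e e' : Z.E} (h : Z.pc e = Z.pc e') :
    Z.pot c e0 e' = Z.pot c e0 e := by
  unfold pot
  rw [h]

/-- equivalence -/
def eqv (e e' : Z.E) : Prop := ∃ w : W, w • e = e'

theorem eqv_refl (e : Z.E) : Z.eqv e e := ⟨1, one_smul _ _⟩

theorem eqv_symm {e e' : Z.E} (h : Z.eqv e e') : Z.eqv e' e := by
  obtain ⟨w, rfl⟩ := h
  exact ⟨w⁻¹, inv_smul_smul _ _⟩

theorem eqv_trans {e e' e'' : Z.E} (h : Z.eqv e e') (h' : Z.eqv e' e'') : Z.eqv e e'' := by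
  obtain ⟨w, rfl⟩ := h
  obtain ⟨w', rfl⟩ := h'
  exact ⟨w' * w, mul_smul _ _ _⟩

theorem eqv_card {e e' : Z.E} (h : Z.eqv e e') :
    {x | Z.ln x = Z.ln e'}.ncard = {x | Z.ln x = Z.ln e}.ncard := by
  obtain ⟨w, rfl⟩ := h
  have : {x | Z.ln x = Z.ln (w • e)} = (fun x => w • x) '' {x | Z.ln x = Z.ln e} := by
    ext x
    constructor
    · intro hx
      refine ⟨w⁻¹ • x, ?_, smul_inv_smul _ _⟩
      have hx' : Z.ln x = Z.ln (w • e) := hx
      show Z.ln (w⁻¹ • x) = Z.ln e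
      rw [Z.ln_smul, hx', Z.ln_smul, inv_smul_smul]
    · rintro ⟨x, hx, rfl⟩
      have hx' : Z.ln x = Z.ln e := hx
      show Z.ln (w • x) = Z.ln (w • e)
      rw [Z.ln_smul, Z.ln_smul, hx']
  rw [this, Set.ncard_image_of_injective]
  exact MulAction.injective w

/-- **There is a line with transitively permuted pages.** -/
theorem exists_transitive (hW : Subgroup.closure {s : W | s * s = 1} = ⊤) :
    ∃ ω0 : Z.Λ, ∀ e e', Z.ln e = ω0 → Z.ln e' = ω0 → Z.eqv e e' := by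
  classical
  by_contra hcon
  push Not at hcon
  have hB : ∀ e, ∃ e', Z.ln e' = Z.ln e ∧ ¬ Z.eqv e e' := by
    intro e
    obtain ⟨e1, e2, h1, h2, h3⟩ := hcon (Z.ln e)
    by_cases h : Z.eqv e e1
    · exact ⟨e2, h2, fun h' => h3 (Z.eqv_trans (Z.eqv_symm h) h')⟩
    · exact ⟨e1, h1, h⟩
  choose A hA1 hA2 using Z.both
  choose B hB1 hB2 using hB
  obtain ⟨ω⟩ := Z.ne
  have hne : ∃ e : Z.E, Z.ln e = ω := by
    by_contra h
    push Not at h
    have : {e | Z.ln e = ω} = ∅ := by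
      ext e; simp [h e]
    have h2 := Z.fiber ω
    rw [this] at h2
    simp at h2
  obtain ⟨e0, -⟩ := hne
  let ε : ℕ → Z.E := fun k => Nat.rec e0 (fun k e => if Even k then A e else B e) k
  have hε : ∀ k, ε (k + 1) = if Even k then A (ε k) else B (ε k) := fun k => rfl
  have hAn : ∀ e, ¬ Z.eqv e (A e) := fun e h => hA2 e (Z.eqv_card h)
  have hstep : ∀ k, ¬ Z.eqv (ε k) (ε (k + 1)) := by
    intro k
    rw [hε]
    by_cases hk : Even k
    · rw [if_pos hk]; exact hAn _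
    · rw [if_neg hk]; exact hB2 _
  -- pigeonhole
  obtain ⟨F, hF, hF'⟩ := Z.orb
  have hex : ∃ d, 0 < d ∧ ∃ i, Z.eqv (ε i) (ε (i + d)) := by
    choose w hw using hF'
    obtain ⟨i, -, j, -, hij, h⟩ := Set.infinite_univ.exists_ne_map_eq_of_mapsTo
      (f := fun k : ℕ => w (ε k) • ε k) (t := F) (fun k _ => hw _) hF
    have hij' : Z.eqv (ε i) (ε j) := by
      have h' : w (ε i) • ε i = w (ε j) • ε j := h
      refine ⟨(w (ε j))⁻¹ * w (ε i), ?_⟩
      rw [mul_smul, h', inv_smul_smul]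
    rcases lt_or_gt_of_ne hij with hlt | hlt
    · exact ⟨j - i, by omega, i, by rw [Nat.add_sub_cancel' hlt.le]; exact hij'⟩
    · exact ⟨i - j, by omega, j, by rw [Nat.add_sub_cancel' hlt.le]; exact Z.eqv_symm hij'⟩
  let d := Nat.find hex
  obtain ⟨hd0, i, hi⟩ := Nat.find_spec hex
  change 0 < d at hd0
  change Z.eqv (ε i) (ε (i + d)) at hi
  have hmin : ∀ d', 0 < d' → d' < d → ∀ i', ¬ Z.eqv (ε i') (ε (i' + d')) := by
    intro d' h1 h2 i' h3
    exact Nat.find_min hex h2 ⟨h1, i', h3⟩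
  have hd2 : 2 ≤ d := by
    by_contra h
    have : d = 1 := by omega
    rw [this] at hi
    exact hstep i hi
  let c : Set Z.E := {e | Z.eqv (ε (i + 1)) e}
  have hc : ∀ (w : W) e, w • e ∈ c ↔ e ∈ c := by
    intro w e
    constructor
    · intro h; exact Z.eqv_trans h (Z.eqv_symm ⟨w, rfl⟩)
    · intro h; exact Z.eqv_trans h ⟨w, rfl⟩
  have i1 : Z.ind c (ε (i + 1)) = 1 := by
    unfold ind
    rw [if_pos]
    exact Z.eqv_refl _
  have i2 : ∀ m, i + 2 ≤ m → m ≤ i + d → Z.ind c (ε m) = 0 := by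
    intro m h1 h2
    unfold ind
    rw [if_neg]
    intro h
    have h' : Z.eqv (ε (i + 1)) (ε (i + 1 + (m - (i + 1)))) := by
      rw [Nat.add_sub_cancel' (by omega)]
      exact h
    exact hmin (m - (i + 1)) (by omega) (by omega) (i + 1) h'
  have i0 : Z.ind c (ε i) = 0 := by
    unfold ind
    rw [if_neg]
    intro h
    exact hstep i (Z.eqv_symm h)
  have hN : Z.pot c e0 (ε (i + d)) = Z.pot c e0 (ε i) := by
    obtain ⟨w, hw⟩ := hi
    rw [← hw, Z.pot_inv hc hW]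
  have ev : ∀ k, Even k → Z.pot c e0 (ε (k + 1)) = Z.pot c e0 (ε k) := by
    intro k hk
    rw [hε, if_pos hk]
    exact Z.pot_piece c e0 (hA1 _).symm
  have od : ∀ k, ¬ Even k → Z.pot c e0 (ε (k + 1)) + Z.ind c (ε (k + 1)) =
      Z.pot c e0 (ε k) + Z.ind c (ε k) := by
    intro k hk
    rw [hε, if_neg hk]
    exact Z.pot_line c e0 (hB1 _).symm
  have hconst : ∀ m, i + 2 ≤ m → m ≤ i + d →
      Z.pot c e0 (ε m) = Z.pot c e0 (ε (i + 2)) := by
    intro m hm
    induction m, hm using Nat.le_induction with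
    | base => intro _; rfl
    | succ m hm ih =>
      intro h
      rw [← ih (by omega)]
      by_cases hk : Even m
      · exact ev m hk
      · have := od m hk
        rw [i2 m hm (by omega), i2 (m + 1) (by omega) h] at this
        omega
  have hfin := hconst (i + d) (by omega) le_rfl
  rw [hN] at hfin
  by_cases hk : Even i
  · have h1 := ev i hk
    have hk' : ¬ Even (i + 1) := by
      rw [Nat.even_add_one]; exact fun h => h hk
    have h2 : Z.pot c e0 (ε (i + 2)) + Z.ind c (ε (i + 2)) =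
      Z.pot c e0 (ε (i + 1)) + Z.ind c (ε (i + 1)) := od (i + 1) hk'
    rw [i1, i2 (i + 2) (by omega) (by omega)] at h2
    linarith
  · have h1 := od i hk
    have hk' : Even (i + 1) := by
      rw [Nat.even_add_one]; exact hk
    have h2 := ev (i + 1) hk'
    rw [i1, i0] at h1
    have h3 : Z.pot c e0 (ε (i + 2)) = Z.pot c e0 (ε (i + 1)) := h2
    linarith

end WA

end Pool.Agent.R646.Q
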